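import Pool.Agent.Run7.h757.MW.Stm

/-!
# Project MW (helper757), REGIT: the primes with index in a regular set
-/

set_option autoImplicit false

open Finset Filter

namespace Pool.Agent.Run7.h136.MW

open Pool.Agent.Run7.h757.MW

/-- the `n`-th prime -/
noncomputable def pr (n : ℕ) : ℕ := Nat.nth Nat.Prime (n - 1)

/-- the number of primes `≤ x` -/
noncomputable def pc (x : ℝ) : ℕ := Nat.count Nat.Prime (⌊x⌋₊ + 1)

theorem pr_le {n : ℕ} (hn : 1 ≤ n) {z : ℝ} (hz : 0 ≤ z) : (pr n : ℝ) ≤ z ↔ n ≤ pc z := by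
  unfold pr pc
  rw [← Nat.le_floor_iff hz]
  have h := @Nat.lt_nth_iff_count_lt Nat.Prime _ Nat.infinite_setOfPred_prime (n - 1) (⌊z⌋₊ + 1)
  constructor
  · intro h1
    have h2 := h.2 (by omega)
    omega
  · intro h1
    have h2 := h.1 (by omega)
    omega

theorem lt_pr {n : ℕ} (hn : 1 ≤ n) {z : ℝ} (hz : 0 ≤ z) : z < (pr n : ℝ) ↔ pc z < n := by
  have h := pr_le hn hz
  constructor
  · intro h1
    by_contra h2
    exact absurd (h.2 (not_lt.1 h2)) (not_le.2 h1)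
  · intro h1
    by_contra h2
    exact absurd (h.1 (not_lt.1 h2)) (not_le.2 h1)

theorem pr_inj : Set.InjOn pr {n | 1 ≤ n} := by
  intro a ha b hb h
  unfold pr at h
  have h1 := Nat.nth_injective Nat.infinite_setOfPred_prime h
  have ha' : 1 ≤ a := ha
  have hb' : 1 ≤ b := hb
  omega

theorem pr_surj {p : ℕ} (hp : p.Prime) : ∃ n, 1 ≤ n ∧ pr n = p := by
  refine ⟨Nat.count Nat.Prime p + 1, by omega, ?_⟩
  unfold pr
  rw [Nat.add_sub_cancel]
  exact Nat.nth_count hp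

/-- the primes in `(x, z]` -/
theorem count_primes {x z : ℝ} (hx : 0 ≤ x) (hxz : x ≤ z) :
    (({p : ℕ | p.Prime} ∩ {n : ℕ | x < n ∧ (n : ℝ) ≤ z}).ncard : ℝ) ≤ (pc z : ℝ) - pc x := by
  have h1 : ({p : ℕ | p.Prime} ∩ {n : ℕ | x < n ∧ (n : ℝ) ≤ z}) ⊆
      pr '' (Set.Ioc (pc x) (pc z)) := by
    rintro p ⟨hp, hp1, hp2⟩
    obtain ⟨n, hn, rfl⟩ := pr_surj hp
    exact ⟨n, ⟨(lt_pr hn hx).1 hp1, (pr_le hn (hx.trans hxz)).1 hp2⟩, rfl⟩
  have hfin : (pr '' (Set.Ioc (pc x) (pc z))).Finite := (Set.finite_Ioc _ _).image _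
  have h2 := Set.ncard_le_ncard h1 hfin
  have h3 : (pr '' (Set.Ioc (pc x) (pc z))).ncard ≤ (Set.Ioc (pc x) (pc z)).ncard :=
    Set.ncard_image_le (Set.finite_Ioc _ _)
  have h4 : (Set.Ioc (pc x) (pc z)).ncard = pc z - pc x := by
    rw [← Finset.coe_Ioc, Set.ncard_coe_finset, Nat.card_Ioc]
  have h5 : pc x ≤ pc z := by
    unfold pc
    refine Nat.count_monotone _ ?_
    have := Nat.floor_le_floor hxz
    omega
  have h6 : (({p : ℕ | p.Prime} ∩ {n : ℕ | x < n ∧ (n : ℝ) ≤ z}).ncard : ℝ) ≤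
      ((pc z - pc x : ℕ) : ℝ) := by
    rw [← h4]
    exact_mod_cast h2.trans h3
  rwa [Nat.cast_sub h5] at h6

theorem pc_lt {x : ℝ} (hx : 0 ≤ x) : (pc x : ℝ) ≤ x := by
  rcases Nat.eq_zero_or_pos (pc x) with h | h
  · rw [h]
    simpa using hx
  · have h1 := (pr_le h hx).2 le_rfl
    have h2 : pc x ≤ pr (pc x) := by
      unfold pr
      have := Nat.add_two_le_nth_prime (pc x - 1)
      omega
    have h3 : (pc x : ℝ) ≤ pr (pc x) := by exact_mod_cast h2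
    linarith

/-- the elements of the image in `(x, z]` -/
theorem count_image (W : Set ℕ) {x z : ℝ} (hx : 0 ≤ x) (hxz : x ≤ z) {Y : ℝ}
    (hY : (pc x : ℝ) + Y ≤ pc z) :
    ((W ∩ {n : ℕ | (pc x : ℝ) < n ∧ (n : ℝ) ≤ pc x + Y}).ncard : ℝ) ≤
      ((pr '' W ∩ {n : ℕ | x < n ∧ (n : ℝ) ≤ z}).ncard : ℝ) := by
  have h1 : pr '' (W ∩ {n : ℕ | (pc x : ℝ) < n ∧ (n : ℝ) ≤ pc x + Y}) ⊆
      pr '' W ∩ {n : ℕ | x < n ∧ (n : ℝ) ≤ z} := by
    rintro _ ⟨n, ⟨hn, hn1, hn2⟩, rfl⟩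
    have h2 : pc x < n := by exact_mod_cast hn1
    have h3 : n ≤ pc z := by
      have : (n : ℝ) ≤ pc z := hn2.trans hY
      exact_mod_cast this
    have h4 : 1 ≤ n := by omega
    exact ⟨⟨n, hn, rfl⟩, (lt_pr h4 hx).2 h2, (pr_le h4 (hx.trans hxz)).2 h3⟩
  have hfin : (pr '' W ∩ {n : ℕ | x < n ∧ (n : ℝ) ≤ z}).Finite := by
    refine Set.Finite.subset (Set.finite_Iic ⌊z⌋₊) ?_
    rintro n ⟨_, _, hn⟩
    exact Nat.le_floor hn
  have h2 := Set.ncard_le_ncard h1 hfin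
  have h3 : (pr '' (W ∩ {n : ℕ | (pc x : ℝ) < n ∧ (n : ℝ) ≤ pc x + Y})).ncard =
      (W ∩ {n : ℕ | (pc x : ℝ) < n ∧ (n : ℝ) ≤ pc x + Y}).ncard := by
    refine Set.InjOn.ncard_image (pr_inj.mono ?_)
    rintro n ⟨_, hn, _⟩
    have h4 : pc x < n := by exact_mod_cast hn
    show 1 ≤ n
    omega
  rw [← h3]
  exact_mod_cast h2

theorem regit (hP : Reg (1 / 2) 1 {p : ℕ | p.Prime}) (W : Set ℕ) (c t : ℝ) (hc : 0 < c)
    (ht : 0 ≤ t) (hW : Reg c t W) : Reg (c / 8) (t + 1) (pr '' W) := by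
  intro B
  obtain ⟨x₁, h₁⟩ := hP B
  obtain ⟨x₂, h₂⟩ := hP 0
  obtain ⟨B', hB'⟩ : ∃ B' : ℝ, B' = max B 0 + 3 := ⟨_, rfl⟩
  have hB'0 : 3 ≤ B' := by
    rw [hB']
    have := le_max_right B 0
    linarith
  have hB'B : B + 3 ≤ B' := by
    rw [hB']
    have := le_max_left B 0
    linarith
  obtain ⟨x₃, h₃⟩ := hW B'
  -- large `x`
  have E1 : ∀ᶠ x : ℝ in atTop, ‖Real.log x‖ ≤ (1 / 4) * ‖x ^ (1 / 2 : ℝ)‖ :=
    (isLittleO_log_rpow_atTop (show (0 : ℝ) < 1 / 2 by norm_num)).bound (by norm_num)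
  have E2 : ∀ᶠ x : ℝ in atTop, x₃ ≤ x ^ (1 / 2 : ℝ) :=
    (tendsto_rpow_atTop (show (0 : ℝ) < 1 / 2 by norm_num)).eventually_ge_atTop x₃
  have E3 : ∀ᶠ x : ℝ in atTop, 4 * (2 : ℝ) ^ B' + 2 ≤ Real.log x :=
    Real.tendsto_log_atTop.eventually_ge_atTop _
  have E4 : ∀ᶠ x : ℝ in atTop, x₁ ≤ x := eventually_ge_atTop x₁
  have E5 : ∀ᶠ x : ℝ in atTop, 2 * x₂ + 2 ≤ x := eventually_ge_atTop _
  have E6 : ∀ᶠ x : ℝ in atTop, (4 : ℝ) ≤ x := eventually_ge_atTop _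
  obtain ⟨x₀, hx₀⟩ := (E1.and (E2.and (E3.and (E4.and (E5.and E6))))).exists_forall_of_atTop
  refine ⟨x₀, fun x y hx hy1 hy2 => ?_⟩
  obtain ⟨e1, e2, e3, e4, e5, e6⟩ := hx₀ x hx
  have hx0 : 0 < x := by linarith
  obtain ⟨L, hL⟩ : ∃ L : ℝ, L = Real.log x := ⟨_, rfl⟩
  rw [← hL] at e1 e3 hy1
  have h2B : 0 < (2 : ℝ) ^ B' := Real.rpow_pos_of_pos (by norm_num) _
  have hL2 : 2 ≤ L := by linarith
  have hL0 : 0 < L := by linarith
  have hy0 : 0 ≤ y := le_trans (by positivity) hy1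
  rw [Real.norm_eq_abs, abs_of_pos hL0, Real.norm_eq_abs,
    abs_of_nonneg (Real.rpow_nonneg hx0.le _)] at e1
  -- the number of primes up to `x`
  have p1 : x / (4 * L) ≤ pc x := by
    have h := h₂ (x / 2) (x / 2) (by linarith) (by rw [Real.rpow_zero, div_one]) le_rfl
    have e : x / 2 + x / 2 = x := by ring
    rw [e, Real.rpow_one] at h
    have h' := h.trans (count_primes (show (0 : ℝ) ≤ x / 2 by linarith) (show x / 2 ≤ x by linarith))
    have h4 : 0 < Real.log (x / 2) := Real.log_pos (by linarith)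
    have h5 : Real.log (x / 2) ≤ L := by
      rw [hL]
      exact Real.log_le_log (by linarith) (by linarith)
    have h6 : x / (4 * L) ≤ 1 / 2 * (x / 2) / Real.log (x / 2) := by
      rw [div_le_div_iff₀ (by positivity) h4]
      nlinarith
    have h7 : (0 : ℝ) ≤ pc (x / 2) := Nat.cast_nonneg _
    linarith
  have hX1 : x ^ (1 / 2 : ℝ) ≤ pc x := by
    refine le_trans ?_ p1
    rw [le_div_iff₀ (by positivity)]
    have h4 : x ^ (1 / 2 : ℝ) * x ^ (1 / 2 : ℝ) = x := by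
      rw [← Real.rpow_add hx0]
      norm_num
    have h5 : 0 ≤ x ^ (1 / 2 : ℝ) := Real.rpow_nonneg hx0.le _
    nlinarith
  have hX2 : (pc x : ℝ) ≤ x := pc_lt hx0.le
  have hs1 : 1 < x ^ (1 / 2 : ℝ) := Real.one_lt_rpow (by linarith) (by norm_num)
  have hX0 : (1 : ℝ) < pc x := by linarith
  obtain ⟨X, hX⟩ : ∃ X : ℝ, X = pc x := ⟨_, rfl⟩
  rw [← hX] at p1 hX1 hX2 hX0
  have hlX0 : 0 < Real.log X := Real.log_pos hX0
  have hlX1 : Real.log X ≤ L := by
    rw [hL]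
    exact Real.log_le_log (by linarith) hX2
  have hlX2 : L / 2 ≤ Real.log X := by
    have h4 : Real.log (x ^ (1 / 2 : ℝ)) ≤ Real.log X := Real.log_le_log (by linarith) hX1
    rw [Real.log_rpow hx0, ← hL] at h4
    linarith
  -- primes in `(x, x + y]`
  have p2 : y / (2 * L) ≤ (pc (x + y) : ℝ) - X := by
    have h := h₁ x y e4 (by rw [← hL]; exact hy1) hy2
    rw [Real.rpow_one, ← hL] at h
    have h' := h.trans (count_primes hx0.le (show x ≤ x + y by linarith))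
    rw [← hX] at h'
    refine le_trans (le_of_eq ?_) h'
    field_simp
  obtain ⟨Y, hY⟩ : ∃ Y : ℝ, Y = min ((pc (x + y) : ℝ) - X) X := ⟨_, rfl⟩
  have hYa : Y ≤ (pc (x + y) : ℝ) - X := by rw [hY]; exact min_le_left _ _
  have hYb : Y ≤ X := by rw [hY]; exact min_le_right _ _
  have hYc : y / (4 * L) ≤ Y := by
    rw [hY]
    refine le_min ?_ ?_
    · refine le_trans ?_ p2
      exact div_le_div_of_nonneg_left hy0 (by positivity) (by linarith)
    · refine le_trans ?_ p1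
      exact div_le_div_of_nonneg_right hy2 (by positivity)
  have hXY : X / Real.log X ^ B' ≤ Y := by
    refine le_trans ?_ hYc
    have h4 : (L / 2) ^ B' ≤ Real.log X ^ B' :=
      Real.rpow_le_rpow (by positivity) hlX2 (by linarith)
    have h5 : 0 < (L / 2) ^ B' := Real.rpow_pos_of_pos (by positivity) _
    have h6 : X / Real.log X ^ B' ≤ x / (L / 2) ^ B' :=
      div_le_div₀ hx0.le hX2 h5 h4
    refine h6.trans ?_
    have h7 : x / L ^ B / (4 * L) ≤ y / (4 * L) :=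
      div_le_div_of_nonneg_right hy1 (by positivity)
    refine le_trans ?_ h7
    have hLB : 0 < L ^ B := Real.rpow_pos_of_pos hL0 _
    rw [div_div, div_le_div_iff₀ h5 (by positivity), Real.div_rpow hL0.le (by norm_num)]
    have h8 : L ^ (B + 3) ≤ L ^ B' := Real.rpow_le_rpow_of_exponent_le (by linarith) hB'B
    have h9 : L ^ (B + 3) = L ^ B * L ^ 3 := by
      rw [Real.rpow_add hL0]
      norm_cast
    rw [h9] at h8
    have h10 : L ^ B * (4 * L) * 2 ^ B' ≤ L ^ B' := by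
      refine le_trans ?_ h8
      have h11 : 4 * L * 2 ^ B' ≤ L ^ 3 := by
        calc 4 * L * 2 ^ B' = (4 * 2 ^ B') * L := by ring
          _ ≤ L * L := mul_le_mul_of_nonneg_right (by linarith) hL0.le
          _ ≤ L ^ 3 := by nlinarith [mul_pos hL0 hL0]
      calc L ^ B * (4 * L) * 2 ^ B' = L ^ B * (4 * L * 2 ^ B') := by ring
        _ ≤ L ^ B * L ^ 3 := mul_le_mul_of_nonneg_left h11 hLB.le
    have h12 : L ^ B * (4 * L) ≤ L ^ B' / 2 ^ B' := by
      rw [le_div_iff₀ h2B]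
      exact h10
    exact mul_le_mul_of_nonneg_left h12 hx0.le
  have h4 := h₃ X Y (by linarith) hXY hYb
  have h5 := count_image W hx0.le (show x ≤ x + y by linarith) (Y := Y) (by
    rw [← hX]
    linarith)
  rw [← hX] at h5
  refine le_trans ?_ (h4.trans h5)
  rw [← hL]
  have hLt : 0 < L ^ t := Real.rpow_pos_of_pos hL0 _
  have hXt : 0 < Real.log X ^ t := Real.rpow_pos_of_pos hlX0 _
  have h6 : Real.log X ^ t ≤ L ^ t := Real.rpow_le_rpow hlX0.le hlX1 ht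
  have h7 : L ^ (t + 1) = L ^ t * L := by rw [Real.rpow_add hL0, Real.rpow_one]
  rw [h7]
  have hY0 : 0 ≤ Y := le_trans (by positivity) hYc
  calc c / 8 * y / (L ^ t * L) = (1 / 2) * (c * (y / (4 * L)) / L ^ t) := by
        field_simp
        ring
    _ ≤ c * (y / (4 * L)) / L ^ t := by
        have : 0 ≤ c * (y / (4 * L)) / L ^ t := by positivity
        linarith
    _ ≤ c * Y / L ^ t := by gcongr
    _ ≤ c * Y / Real.log X ^ t := by gcongr

end Pool.Agent.Run7.h136.MW
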