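import Pool.Agent.Run7.h757.MW.Stm6
import Pool.Agent.Run7.h416.MW.REGP
import Pool.Agent.Run7.h136.MW.RegCore

/-!
# Project MW (helper757), REGIT
-/

set_option autoImplicit false

namespace Pool.Agent.Run7.h136.MW

open Pool.Agent.Run7.h757.MW

theorem t_REGIT : S_REGIT := fun W c t hc ht hW =>
  regit Pool.Agent.Run7.h416.MW.regp W c t hc ht hW

end Pool.Agent.Run7.h136.MW
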